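import Pool.Agent.R253.PQ.Asm
import Pool.Agent.R253.PQ.SEG
import Pool.Agent.R253.PQ.ACL
import Pool.Agent.R253.PQ.SD
import Pool.Agent.R253.PQ.ELEM
import Pool.Agent.R253.PQ.SMALL
import Pool.Agent.R253.PQ.RAD
import Pool.Agent.R253.PQ.PATH
import Pool.Agent.R253.PQ.VOL
import Pool.Agent.R253.PQ.MOM
import Pool.Agent.R253.PQ.NQC

/-!
# A plane domain with a weak (1,∞)-Poincaré inequality which is not quasiconvex (MP_dc21ba_an)

The Euclidean plane is `ℂ`. The question is whether every domain `Ω ⊆ ℝⁿ` which supports a weak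
`(1,∞)`-Poincaré inequality for Lebesgue measure is quasiconvex. The answer is negative, already in
the plane.

The domain is a tube around the graph of a piecewise affine function `f` on `[0,∞)`. The slope of `f`
is a sum of patterns `0, δ, -δ, 0` at rapidly increasing scales `P 0 < P 1 < …`, so that the mean of
`|f'|` over `[0, 4 P k]` tends to infinity while `f (4 P k) = 0`: the domain is not quasiconvex. The
half width `wd n` of the tube over `[n, n+1]` decreases so fast that in every large ball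
almost all of the area lies near the first edge of the polygon which meets the ball. At the scale
`r` the polygon stays within a distance `≤ r/100` of a polygon whose slopes vary by at most `1/4` in
balls of radius `r`; so it runs away from the centre of the ball monotonically, and all of
the tube that meets the ball before its first edge in the ball is joined to it inside the domain by
paths of length `≤ r`. Small balls meet at most two adjacent (convex) tubes.

Pieces of the proof were written by helper670 (SEG, ELEM, RAD), helper359 (ACL), helper451 (SD),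
helper757 (SMALL, PATH, VOL, NQC) and helper372 (MOM), see `Pool/Agent/R253/PQ/NOTES.md`.
-/

set_option autoImplicit false
open MeasureTheory Set Metric
open scoped ENNReal

namespace Pool.Agent.Results.MP_dc21ba_an.PoincareNotQuasiconvex

noncomputable section

/-- `g` is an upper gradient of `u` on `Ω`: `g` is a Borel function with values in `[0,∞]` and
`|u (c 0) - u (c L)| ≤ ∫_c g ds` for every rectifiable curve `c` in `Ω`, parametrised by arc length
on `[0, L]` -/
def IsUpperGradient (Ω : Set ℂ) (u : ℂ → ℝ) (g : ℂ → ℝ≥0∞) : Prop :=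
  Measurable g ∧ ∀ (c : ℝ → ℂ) (L : ℝ), 0 ≤ L → HasUnitSpeedOn c (Icc 0 L) →
    (∀ t ∈ Icc 0 L, c t ∈ Ω) → ENNReal.ofReal |u (c 0) - u (c L)| ≤ ∫⁻ t in Icc 0 L, g (c t)

/-- `Ω` supports a weak `(1,∞)`-Poincaré inequality for Lebesgue measure: there are `C > 0`, `lam ≥ 1`
such that for every ball `B = Ω ∩ ball p r` (`p ∈ Ω`, `r > 0`), every locally integrable `u` on `Ω` and
every upper gradient `g` of `u` the mean of `|u - u_B|` over `B` is at most
`C r ‖g‖_{L^∞(Ω ∩ ball p (lam r))}` -/
def WeakPoincare (Ω : Set ℂ) : Prop :=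
  ∃ C : ℝ, 0 < C ∧ ∃ lam : ℝ, 1 ≤ lam ∧ ∀ p ∈ Ω, ∀ r : ℝ, 0 < r → ∀ u : ℂ → ℝ,
    LocallyIntegrableOn u Ω volume → ∀ g : ℂ → ℝ≥0∞, IsUpperGradient Ω u g →
    (∫⁻ x in Ω ∩ ball p r, ENNReal.ofReal |u x - ⨍ y in Ω ∩ ball p r, u y|) /
        volume (Ω ∩ ball p r) ≤
      ENNReal.ofReal (C * r) * essSup g (volume.restrict (Ω ∩ ball p (lam * r)))

/-- `Ω` is quasiconvex: any two points `x, y` are joined by a curve in `Ω` of length at most
`K |x - y|` -/
def IsQuasiconvex (Ω : Set ℂ) : Prop :=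
  ∃ K : ℝ, 1 ≤ K ∧ ∀ x ∈ Ω, ∀ y ∈ Ω, ∃ c : ℝ → ℂ, ContinuousOn c (Icc 0 1) ∧ c 0 = x ∧ c 1 = y ∧
    (∀ t ∈ Icc (0:ℝ) 1, c t ∈ Ω) ∧ eVariationOn c (Icc 0 1) ≤ ENNReal.ofReal (K * dist x y)

/-- **Result.** There is a domain in the plane which supports a weak `(1,∞)`-Poincaré inequality and
is not quasiconvex. -/
theorem result : ∃ Ω : Set ℂ, IsOpen Ω ∧ IsConnected Ω ∧ WeakPoincare Ω ∧ ¬ IsQuasiconvex Ω := by
  have hE := Pool.Agent.R253.PQ.t_ELEM
  have hV := Pool.Agent.R253.PQ.t_VOL hE
  have hS := Pool.Agent.R253.PQ.t_SMALL hE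
  have hP := Pool.Agent.R253.PQ.t_PATH hE
  have hB := Pool.Agent.R253.PQ.t_BIG hE Pool.Agent.R253.PQ.t_SD Pool.Agent.R253.PQ.t_RAD hP
  exact ⟨Pool.Agent.R253.PQ.Om, Pool.Agent.R253.PQ.Om_open, Pool.Agent.R253.PQ.Om_connected hE,
    Pool.Agent.R253.PQ.poincare hE hB hS hV Pool.Agent.R253.PQ.t_SEG Pool.Agent.R253.PQ.t_ACL,
    Pool.Agent.R253.PQ.not_quasiconvex hE Pool.Agent.R253.PQ.t_MOM
      (Pool.Agent.R253.PQ.t_NQC hE)⟩

end

end Pool.Agent.Results.MP_dc21ba_an.PoincareNotQuasiconvex
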